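import Mathlib

namespace Pool.Agent.Results.MP_0d6f46_co.Counter

/-- Tie-breaking conventions: friendly or antagonistic. -/
inductive Conv
  | F
  | A

/-- The candidate pair produced by removing `s` from heap `h` in setting `c v d`. -/
def cand (o : Conv → Conv → ℕ → ℕ × ℕ) (c d : Conv) (h s : ℕ) : ℕ × ℕ :=
  (s + (o d c (h - s)).2, (o d c (h - s)).1)

/-- The mover with convention `c` weakly prefers the pair `p` to the pair `q`. -/
def Prefers (c : Conv) (p q : ℕ × ℕ) : Prop :=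
  q.1 ≤ p.1 ∧ (q.1 = p.1 → (c = Conv.F → q.2 ≤ p.2) ∧ (c = Conv.A → p.2 ≤ q.2))

/-- `o` satisfies the backward-induction equations of the game with subtraction set `S`. -/
def IsOutcome (S : Finset ℕ) (o : Conv → Conv → ℕ → ℕ × ℕ) : Prop :=
  ∀ c d h, ((∀ s ∈ S, h < s) → o c d h = (0, 0)) ∧
    ((∃ s ∈ S, s ≤ h) → ∃ s ∈ S, s ≤ h ∧ o c d h = cand o c d h s ∧
      ∀ t ∈ S, t ≤ h → Prefers c (cand o c d h s) (cand o c d h t))

theorem exists_best (c : Conv) (T : Finset ℕ) (hT : T.Nonempty) (g : ℕ → ℕ × ℕ) :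
    ∃ s ∈ T, ∀ t ∈ T, Prefers c (g s) (g t) := by
  classical
  obtain ⟨a, ha, hmax⟩ := T.exists_max_image (fun s => (g s).1) hT
  have hne : (T.filter fun s => (g s).1 = (g a).1).Nonempty := ⟨a, by simp [ha]⟩
  cases c with
  | F =>
    obtain ⟨b, hb, hb2⟩ := Finset.exists_max_image _ (fun s => (g s).2) hne
    rw [Finset.mem_filter] at hb
    refine ⟨b, hb.1, fun t ht => ⟨by rw [hb.2]; exact hmax t ht, fun e => ⟨fun _ => ?_, fun h => ?_⟩⟩⟩
    · exact hb2 t (Finset.mem_filter.2 ⟨ht, e.trans hb.2⟩)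
    · cases h
  | A =>
    obtain ⟨b, hb, hb2⟩ := Finset.exists_min_image _ (fun s => (g s).2) hne
    rw [Finset.mem_filter] at hb
    refine ⟨b, hb.1, fun t ht => ⟨by rw [hb.2]; exact hmax t ht, fun e => ⟨fun h => ?_, fun _ => ?_⟩⟩⟩
    · cases h
    · exact hb2 t (Finset.mem_filter.2 ⟨ht, e.trans hb.2⟩)

/-- generic existence of solutions of a strong recursion given by a relation -/
theorem exists_rec {α : Type} [Inhabited α] (R : ℕ → (ℕ → α) → α → Prop)
    (hex : ∀ h f, ∃ a, R h f a)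
    (hloc : ∀ h f g a, (∀ k < h, f k = g k) → R h f a → R h g a) :
    ∃ f : ℕ → α, ∀ h, R h f (f h) := by
  classical
  choose ch hch using hex
  let F : (h : ℕ) → ((k : ℕ) → k < h → α) → α := fun h r =>
    ch h (fun k => if hk : k < h then r k hk else default)
  let f : ℕ → α := fun h => Nat.strongRec (motive := fun _ => α) F h
  refine ⟨f, fun h => ?_⟩
  have e : f h = ch h (fun k => if k < h then f k else default) := by
    show Nat.strongRec (motive := fun _ => α) F h = _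
    rw [Nat.strongRec_eq]
    simp only [F, f, dite_eq_ite]
  rw [e]
  refine hloc h _ _ _ (fun k hk => ?_) (hch h _)
  simp [hk]

theorem exists_outcome (S : Finset ℕ) (hS : ∀ s ∈ S, 1 ≤ s) : ∃ o, IsOutcome S o := by
  classical
  have := exists_rec (α := Conv → Conv → ℕ × ℕ)
    (fun h f a => ∀ c d, ((∀ s ∈ S, h < s) → a c d = (0, 0)) ∧
      ((∃ s ∈ S, s ≤ h) → ∃ s ∈ S, s ≤ h ∧ a c d = cand (fun c d k => f k c d) c d h s ∧
        ∀ t ∈ S, t ≤ h → Prefers c (cand (fun c d k => f k c d) c d h s)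
          (cand (fun c d k => f k c d) c d h t))) ?_ ?_
  · obtain ⟨f, hf⟩ := this
    exact ⟨fun c d k => f k c d, fun c d h => hf h c d⟩
  · intro h f
    by_cases hl : ∃ s ∈ S, s ≤ h
    · have hne : (S.filter (· ≤ h)).Nonempty := by
        obtain ⟨s, h1, h2⟩ := hl
        exact ⟨s, by simp [h1, h2]⟩
      have := fun c d => exists_best c _ hne (cand (fun c d k => f k c d) c d h)
      choose s hs1 hs2 using this
      refine ⟨fun c d => cand (fun c d k => f k c d) c d h (s c d), fun c d => ⟨fun h0 => ?_, fun _ => ?_⟩⟩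
      · obtain ⟨s, h1, h2⟩ := hl
        exact absurd (h0 s h1) (by omega)
      · have := Finset.mem_filter.1 (hs1 c d)
        exact ⟨s c d, this.1, this.2, rfl, fun t ht hth => hs2 c d t (Finset.mem_filter.2 ⟨ht, hth⟩)⟩
    · exact ⟨fun _ _ => (0, 0), fun c d => ⟨fun _ => rfl, fun h0 => absurd h0 hl⟩⟩
  · intro h f g a hfg hR c d
    refine ⟨(hR c d).1, fun hl => ?_⟩
    obtain ⟨s, h1, h2, h3, h4⟩ := (hR c d).2 hl
    have e : ∀ t ∈ S, t ≤ h → cand (fun c d k => f k c d) c d h t = cand (fun c d k => g k c d) c d h t := by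
      intro t ht hth
      have := hS t ht
      simp only [cand]
      rw [hfg (h - t) (by omega)]
    refine ⟨s, h1, h2, by rw [h3, e s h1 h2], fun t ht hth => ?_⟩
    rw [← e s h1 h2, ← e t ht hth]
    exact h4 t ht hth

def tFF : List (ℕ × ℕ) :=
  [(0, 0), (0, 0), (0, 0), (3, 0), (3, 0), (5, 0), (5, 0), (5, 0), (5, 3), (5, 3), (5, 5), (6, 5), (6, 5), (13, 0), (13, 0), (13, 0), (13, 3), (17, 0), (17, 0), (17, 0), (17, 3), (17, 3), (17, 5), (18, 5), (18, 6), (25, 0), (25, 0), (25, 0), (25, 3), (25, 3), (25, 5), (25, 5), (25, 5), (28, 5), (28, 5), (30, 5), (30, 6), (30, 6), (25, 13), (25, 13), (25, 13), (28, 13), (25, 17), (25, 17), (25, 17), (28, 17), (28, 17), (30, 17), (30, 18), (31, 18), (25, 25), (26, 25), (26, 25), (28, 25), (28, 26), (30, 25), (30, 26), (30, 26), (30, 28), (34, 25), (34, 25), (34, 25), (34, 28), (38, 25), (38, 26), (38, 26), (38, 28), (42, 25), (42, 26), (42, 26), (42, 28), (43, 28), (42, 30), (43, 30), (43,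 31)]

def tFA : List (ℕ × ℕ) :=
  [(0, 0), (0, 0), (0, 0), (3, 0), (3, 0), (5, 0), (5, 0), (5, 0), (5, 3), (5, 3), (5, 5), (6, 5), (6, 5), (13, 0), (13, 0), (13, 0), (13, 3), (17, 0), (17, 0), (17, 0), (17, 3), (17, 3), (17, 5), (18, 5), (18, 6), (25, 0), (25, 0), (25, 0), (25, 3), (25, 3), (25, 5), (25, 5), (25, 5), (28, 5), (28, 5), (30, 5), (30, 6), (30, 6), (25, 13), (25, 13), (25, 13), (28, 13), (25, 17), (25, 17), (25, 17), (28, 17), (28, 17), (30, 17), (30, 18), (31, 18), (25, 25), (26, 25), (26, 25), (28, 25), (28, 26), (30, 25), (30, 26), (30, 26), (30, 28), (34, 25), (34, 25), (34, 25), (34, 28), (38, 25), (38, 26), (38, 26), (38, 28), (42, 25), (42, 26), (42, 26), (42, 28), (42, 28), (42, 30), (43, 30), (43, 31)]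

def tAF : List (ℕ × ℕ) :=
  [(0, 0), (0, 0), (0, 0), (3, 0), (3, 0), (5, 0), (5, 0), (5, 0), (5, 3), (5, 3), (5, 5), (6, 5), (6, 5), (13, 0), (13, 0), (13, 0), (13, 3), (17, 0), (17, 0), (17, 0), (17, 3), (17, 3), (17, 5), (18, 5), (18, 6), (25, 0), (25, 0), (25, 0), (25, 3), (25, 3), (25, 5), (25, 5), (25, 5), (28, 5), (28, 5), (30, 5), (30, 6), (30, 6), (25, 13), (25, 13), (25, 13), (28, 13), (25, 17), (25, 17), (25, 17), (28, 17), (28, 17), (30, 17), (30, 18), (31, 18), (25, 25), (26, 25), (26, 25), (28, 25), (28, 25), (30, 25), (30, 25), (30, 25), (30, 28), (34, 25), (34, 25), (34, 25), (34, 28), (38, 25), (38, 25), (38, 25), (38, 28), (42, 25), (42, 25), (42, 25), (42, 28), (43, 28), (42, 30), (43, 30), (43, 30)]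

def tAA : List (ℕ × ℕ) :=
  [(0, 0), (0, 0), (0, 0), (3, 0), (3, 0), (5, 0), (5, 0), (5, 0), (5, 3), (5, 3), (5, 5), (6, 5), (6, 5), (13, 0), (13, 0), (13, 0), (13, 3), (17, 0), (17, 0), (17, 0), (17, 3), (17, 3), (17, 5), (18, 5), (18, 6), (25, 0), (25, 0), (25, 0), (25, 3), (25, 3), (25, 5), (25, 5), (25, 5), (28, 5), (28, 5), (30, 5), (30, 6), (30, 6), (25, 13), (25, 13), (25, 13), (28, 13), (25, 17), (25, 17), (25, 17), (28, 17), (28, 17), (30, 17), (30, 18), (31, 18), (25, 25), (26, 25), (26, 25), (28, 25), (28, 25), (30, 25), (30, 25), (30, 25), (30, 28), (34, 25), (34, 25), (34, 25), (34, 28), (38, 25), (38, 25), (38, 25), (38, 28), (42, 25), (42, 25), (42, 25), (42, 28), (42, 28), (42, 30), (43, 30), (43, 31)]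

def tab : Conv → Conv → ℕ → ℕ × ℕ
  | .F, .F, h => tFF.getD h (0, 0)
  | .F, .A, h => tFA.getD h (0, 0)
  | .A, .F, h => tAF.getD h (0, 0)
  | .A, .A, h => tAA.getD h (0, 0)

instance : DecidableEq Conv := fun a b => by
  cases a <;> cases b
  exacts [isTrue rfl, isFalse nofun, isFalse nofun, isTrue rfl]

instance (c : Conv) (p q : ℕ × ℕ) : Decidable (Prefers c p q) := by unfold Prefers; infer_instance

def S0 : List ℕ := [3, 5, 13, 17, 25]

def okAt (c d : Conv) (h : ℕ) : Prop :=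
  ((∀ s ∈ S0, h < s) → tab c d h = (0, 0)) ∧
    ((∃ s ∈ S0, s ≤ h) → ∃ s ∈ S0, s ≤ h ∧ tab c d h = cand tab c d h s ∧
      ∀ t ∈ S0, t ≤ h → Prefers c (cand tab c d h s) (cand tab c d h t))

instance (c d : Conv) (h : ℕ) : Decidable (okAt c d h) := by unfold okAt; infer_instance

theorem tab_ok (c d : Conv) : ∀ h ∈ List.range 75, okAt c d h := by
  cases c <;> cases d <;> decide +kernel

theorem pref_antisymm {c : Conv} {p q : ℕ × ℕ} (h1 : Prefers c p q) (h2 : Prefers c q p) :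
    p = q := by
  obtain ⟨a1, a2⟩ := h1
  obtain ⟨b1, b2⟩ := h2
  have e : q.1 = p.1 := le_antisymm a1 b1
  refine Prod.ext e.symm ?_
  cases c
  · exact le_antisymm ((b2 e.symm).1 rfl) ((a2 e).1 rfl)
  · exact le_antisymm ((a2 e).2 rfl) ((b2 e.symm).2 rfl)

theorem eq_tab (o : Conv → Conv → ℕ → ℕ × ℕ) (ho : IsOutcome S0.toFinset o) :
    ∀ h, h < 75 → ∀ c d, o c d h = tab c d h := by
  intro h
  induction h using Nat.strong_induction_on with
  | _ h ih =>
    intro hh c d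
    obtain ⟨a1, a2⟩ := ho c d h
    obtain ⟨b1, b2⟩ := tab_ok c d h (List.mem_range.2 hh)
    simp only [List.mem_toFinset] at a1 a2
    by_cases hl : ∃ s ∈ S0, s ≤ h
    · obtain ⟨s, s1, s2, s3, s4⟩ := a2 hl
      obtain ⟨t, t1, t2, t3, t4⟩ := b2 hl
      have e : ∀ u ∈ S0, u ≤ h → cand o c d h u = cand tab c d h u := by
        intro u hu huh
        have : 1 ≤ u := (by decide : ∀ u ∈ S0, 1 ≤ u) u hu
        simp only [cand]
        rw [ih (h - u) (by omega) (by omega)]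
      rw [s3, t3, e s s1 s2]
      refine pref_antisymm ?_ (t4 s s1 s2)
      rw [← e s s1 s2, ← e t t1 t2]
      exact s4 t t1 t2
    · push Not at hl
      rw [a1 hl, b1 hl]

theorem result : ∃ S : Finset ℕ, S.Nonempty ∧ (∀ s ∈ S, 1 ≤ s) ∧ (∃ o, IsOutcome S o) ∧
    ∃ h, ∀ o, IsOutcome S o → (o Conv.A Conv.F h).2 < (o Conv.A Conv.A h).2 := by
  have hS : ∀ s ∈ S0.toFinset, 1 ≤ s := by decide
  refine ⟨S0.toFinset, ⟨3, by decide⟩, hS, exists_outcome _ hS, 74, fun o ho => ?_⟩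
  rw [eq_tab o ho 74 (by norm_num), eq_tab o ho 74 (by norm_num)]
  decide

end Pool.Agent.Results.MP_0d6f46_co.Counter
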